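import Pool.Agent.D0H74.UFB.Main

/-!
# Braided fusion categories with unitary F-matrices are unitary
-/

open CategoryTheory CategoryTheory.Limits MonoidalCategory Pool.Agent.TH22.UF
  Pool.Agent.D0H74.UFB

universe v u

/-- Let `C` be a braided fusion category.
(1) In a gauge in which all the F-matrices are unitary, all the braiding matrices are unitary.
(2) If there is a gauge in which all the F-matrices are unitary and all the braiding matrices are
diagonal, then `C` is unitary as a braided fusion category.
(3) There is a gauge in which all the F-matrices are unitary if and only if `C` is unitary as a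
braided fusion category. -/
theorem Pool.Agent.Results.MP_7857a6_al.BraidedUnitaryFMatrices.result
    (C : Type u) [Category.{v} C] [Abelian C] [Linear ℂ C] [HasFiniteBiproducts C]
    [MonoidalCategory C] [MonoidalPreadditive C] [MonoidalLinear ℂ C] [RigidCategory C]
    [BraidedCategory C] (hC : IsFusionCategory C) (r : ℕ) (S : Fin r → C)
    (hS : IsSimpleList S) :
    (∀ g : Gauge S, g.UnitaryF → UnitaryR g) ∧
    ((∃ g : Gauge S, g.UnitaryF ∧ DiagonalR g) → IsBraidedUnitary C) ∧
    ((∃ g : Gauge S, g.UnitaryF) ↔ IsBraidedUnitary C) :=
  ⟨fun g hg => unitaryR_of_unitaryF hC hS g hg,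
    fun ⟨g, hg, _⟩ => isBraidedUnitary_of_unitaryF hC hS g hg,
    fun ⟨g, hg⟩ => isBraidedUnitary_of_unitaryF hC hS g hg,
    fun h => exists_gauge_of_isUnitary hC hS (isUnitary_of_isBraidedUnitary h)⟩
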